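import Pool.Agent.W97.MT.Stm
import Pool.Agent.W520.Half
import Pool.Agent.H285R3.Str.Per

/-!
Existence of the period lattice of the curve 14a1 by the intermediate value theorem.
-/

set_option autoImplicit false

open Set Filter Topology

namespace Pool.Agent.W646.MT

open Pool.Agent.H285R3.Str Pool.Agent.W520

/-- the second period -/
noncomputable def tau (t : ℝ) : ℂ := ⟨1 / 2, t⟩

theorem tau_eq (t : ℝ) : tau t = 1 / 2 + t * Complex.I := by
  apply Complex.ext <;> simp [tau]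

/-- the rhombic lattice -/
noncomputable def La (t : ℝ) (ht : t ≠ 0) : PeriodPair where
  ω₁ := 1
  ω₂ := tau t
  indep := by
    rw [LinearIndependent.pair_iff]
    intro a b h
    have h1 := congrArg Complex.im h
    have h2 := congrArg Complex.re h
    simp [tau] at h1 h2
    have hb : b = 0 := h1.resolve_right ht
    subst hb
    simp at h2
    exact ⟨h2, rfl⟩

section

variable {t : ℝ} {ht : t ≠ 0}

theorem mem_La {z : ℂ} : z ∈ (La t ht).lattice ↔ ∃ m n : ℤ, (m : ℂ) * 1 + n * tau t = z :=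
  PeriodPair.mem_lattice

theorem La_conj : ∀ l ∈ (La t ht).lattice, (starRingEnd ℂ) l ∈ (La t ht).lattice := by
  intro l hl
  obtain ⟨m, n, rfl⟩ := mem_La.1 hl
  have h3 : (starRingEnd ℂ) (tau t) = 1 - tau t := by
    apply Complex.ext
    · simp [tau]
      norm_num
    · simp [tau]
  refine mem_La.2 ⟨m + n, -n, ?_⟩
  rw [map_add, map_mul, map_mul, h3, map_one, map_intCast, map_intCast]
  push_cast
  ring

theorem La_real (n : ℕ) : (La t ht).G n = (((La t ht).G n).re : ℂ) :=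
  real_of_conj (G_conj _ La_conj n)

/-- parity of coordinates -/
theorem half_mem {a b : ℤ} (h : (a : ℂ) / 2 + b * tau t / 2 ∈ (La t ht).lattice) :
    2 ∣ a ∧ 2 ∣ b := by
  obtain ⟨m, n, h⟩ := mem_La.1 h
  have h1 := congrArg Complex.im h
  have h2 := congrArg Complex.re h
  simp [tau] at h1 h2
  have e1 : ((2 * n - b : ℤ) : ℝ) * t = 0 := by
    push_cast
    linarith
  have e2 : (2 * n - b : ℤ) = 0 := by
    have := (mul_eq_zero.1 e1).resolve_right ht
    exact_mod_cast this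
  have hb : b = 2 * n := by omega
  subst hb
  push_cast at h2
  have e3 : ((2 * m - a : ℤ) : ℝ) = 0 := by
    push_cast
    linarith
  have e4 : (2 * m - a : ℤ) = 0 := by exact_mod_cast e3
  exact ⟨⟨m, by omega⟩, ⟨n, rfl⟩⟩

theorem La_halves : Halves (La t ht) (1 / 2) (tau t / 2) := by
  refine ⟨mem_La.2 ⟨1, 0, by push_cast; ring⟩, mem_La.2 ⟨0, 1, by push_cast; ring⟩, ?_, ?_, ?_⟩
  · intro h
    have := (half_mem (a := 1) (b := 0) (by simpa using h)).1
    omega
  · intro h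
    have := (half_mem (a := 0) (b := 1) (by simpa using h)).2
    omega
  · intro h
    have := (half_mem (a := 1) (b := 1) (by simpa using h)).2
    omega

end

/-- the invariants do not both vanish -/
theorem not_both {L : PeriodPair} {h₁ h₂ : ℂ} (H : Halves L h₁ h₂) : ¬ (L.g₂ = 0 ∧ L.g₃ = 0) := by
  rintro ⟨h2, h3⟩
  have c1 := H.cubic1
  have c2 := H.symm.cubic1
  rw [h2, h3] at c1 c2
  have e1 : L.weierstrassP h₁ = 0 := by
    have : L.weierstrassP h₁ ^ 3 = 0 := by linear_combination (1 / 4 : ℂ) * c1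
    exact pow_eq_zero_iff (by norm_num) |>.1 this
  have e2 : L.weierstrassP h₂ = 0 := by
    have : L.weierstrassP h₂ ^ 3 = 0 := by linear_combination (1 / 4 : ℂ) * c2
    exact pow_eq_zero_iff (by norm_num) |>.1 this
  exact H.ne12 (by rw [e1, e2])

/-- scaling -/
theorem G_scale (L L' : PeriodPair) (c : ℂ) (hc : c ≠ 0)
    (h : ∀ z, z ∈ L.lattice ↔ c * z ∈ L'.lattice) (n : ℕ) : L'.G n = (c ^ n)⁻¹ * L.G n := by
  let E : L.lattice ≃ L'.lattice :=
    { toFun := fun l => ⟨c * l.1, (h _).1 l.2⟩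
      invFun := fun l => ⟨c⁻¹ * l.1, (h _).2 (by rw [mul_inv_cancel_left₀ hc]; exact l.2)⟩
      left_inv := fun l => Subtype.ext (by simp only; rw [inv_mul_cancel_left₀ hc])
      right_inv := fun l => Subtype.ext (by simp only; rw [mul_inv_cancel_left₀ hc]) }
  rw [PeriodPair.G, ← E.tsum_eq, PeriodPair.G, ← tsum_mul_left]
  refine tsum_congr fun l => ?_
  change ((c * l.1) ^ n)⁻¹ = _
  rw [mul_pow, mul_inv]

/-- the scaled lattice -/
noncomputable def scale (L : PeriodPair) (c : ℂ) (hc : c ≠ 0) : PeriodPair where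
  ω₁ := c * L.ω₁
  ω₂ := c * L.ω₂
  indep := by
    have h := L.indep
    rw [LinearIndependent.pair_iff] at h ⊢
    intro a b hab
    apply h
    have h1 : c * (a • L.ω₁ + b • L.ω₂) = 0 := by
      rw [← hab]
      simp only [Complex.real_smul]
      ring
    exact (mul_eq_zero.1 h1).resolve_left hc

theorem mem_scale (L : PeriodPair) (c : ℂ) (hc : c ≠ 0) (z : ℂ) :
    z ∈ L.lattice ↔ c * z ∈ (scale L c hc).lattice := by
  rw [PeriodPair.mem_lattice, PeriodPair.mem_lattice]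
  constructor
  · rintro ⟨m, n, rfl⟩
    exact ⟨m, n, by simp only [scale]; ring⟩
  · rintro ⟨m, n, h⟩
    refine ⟨m, n, ?_⟩
    apply mul_left_cancel₀ hc
    rw [← h]
    simp only [scale]
    ring

theorem G_eq (t : ℝ) (ht : t ≠ 0) (k : ℕ) : (La t ht).G k =
    ∑' p : ℤ × ℤ, (((p.1 : ℂ) + p.2 * tau t) ^ k)⁻¹ := by
  rw [PeriodPair.G, ← (La t ht).latticeEquivProd.symm.toEquiv.tsum_eq]
  refine tsum_congr fun p => ?_
  have h := (La t ht).latticeEquiv_symm_apply p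
  change ((((La t ht).latticeEquivProd.symm p).1) ^ k)⁻¹ = _
  rw [h]
  simp [La]

theorem G_summable (t : ℝ) (ht : t ≠ 0) (k : ℕ) (hk : 2 < k) :
    Summable (fun p : ℤ × ℤ => (((p.1 : ℂ) + p.2 * tau t) ^ k)⁻¹) := by
  have h := ((La t ht).hasSum_sumInvPow 0 hk).summable
  rw [← (La t ht).latticeEquivProd.symm.toEquiv.summable_iff] at h
  refine h.congr fun p => ?_
  have h1 := (La t ht).latticeEquiv_symm_apply p
  change ((((La t ht).latticeEquivProd.symm p).1 - 0) ^ k)⁻¹ = _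
  rw [h1]
  simp [La]

theorem sq_norm_pt (m n : ℤ) (t : ℝ) :
    ‖(m : ℂ) + n * tau t‖ ^ 2 = ((m : ℝ) + n / 2) ^ 2 + ((n : ℝ) * t) ^ 2 := by
  rw [← Complex.normSq_eq_norm_sq, Complex.normSq_apply]
  simp [tau]
  ring

theorem pt_ne {m n : ℤ} {t : ℝ} (ht : t ≠ 0) (h : (m, n) ≠ (0, 0)) :
    (m : ℂ) + n * tau t ≠ 0 := by
  intro h0
  have h1 := sq_norm_pt m n t
  rw [h0, norm_zero] at h1
  have h2 : ((m : ℝ) + n / 2) ^ 2 = 0 ∧ ((n : ℝ) * t) ^ 2 = 0 := by
    constructor <;> nlinarith [sq_nonneg ((m : ℝ) + n / 2), sq_nonneg ((n : ℝ) * t)]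
  have h3 : (n : ℝ) = 0 := by
    have := pow_eq_zero_iff (two_ne_zero) |>.1 h2.2
    exact (mul_eq_zero.1 this).resolve_right ht
  have h4 : (m : ℝ) = 0 := by
    have := pow_eq_zero_iff (two_ne_zero) |>.1 h2.1
    rw [h3] at this
    linarith
  apply h
  rw [Prod.mk.injEq]
  exact ⟨by exact_mod_cast h4, by exact_mod_cast h3⟩

/-- continuity -/
theorem G_cont (k : ℕ) (hk : 2 < k) : ContinuousOn
    (fun t : ℝ => ∑' p : ℤ × ℤ, (((p.1 : ℂ) + p.2 * tau t) ^ k)⁻¹) (Icc (1 / 2) (√3 / 2)) := by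
  have hh : (1 / 2 : ℝ) ≠ 0 := by norm_num
  refine continuousOn_tsum (u := fun p : ℤ × ℤ => ‖(((p.1 : ℂ) + p.2 * tau (1 / 2)) ^ k)⁻¹‖) ?_
    (G_summable (1 / 2) hh k hk).norm ?_
  · rintro ⟨m, n⟩
    by_cases h : (m, n) = (0, 0)
    · rw [Prod.mk.injEq] at h
      obtain ⟨rfl, rfl⟩ := h
      simpa using continuousOn_const
    · have hc : Continuous tau := by
        have : tau = fun t : ℝ => (1 / 2 : ℂ) + t * Complex.I := funext tau_eq
        rw [this]
        fun_prop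
      apply ContinuousOn.inv₀
      · fun_prop
      · intro t ht
        apply pow_ne_zero
        exact pt_ne (by have := ht.1; linarith) h
  · rintro ⟨m, n⟩ t ht
    by_cases h : (m, n) = (0, 0)
    · rw [Prod.mk.injEq] at h
      obtain ⟨rfl, rfl⟩ := h
      simp
    · rw [norm_inv, norm_inv, norm_pow, norm_pow]
      have h1 : 0 < ‖(m : ℂ) + n * tau (1 / 2)‖ := norm_pos_iff.2 (pt_ne hh h)
      apply inv_anti₀ (pow_pos h1 k)
      apply pow_le_pow_left₀ h1.le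
      apply le_of_sq_le_sq _ (norm_nonneg _)
      rw [sq_norm_pt, sq_norm_pt]
      have h2 : (1 / 2 : ℝ) ≤ t := ht.1
      have h3 : (1 / 2 : ℝ) ^ 2 ≤ t ^ 2 := by nlinarith
      have h4 : ((n : ℝ) * (1 / 2)) ^ 2 ≤ ((n : ℝ) * t) ^ 2 := by
        rw [mul_pow, mul_pow]
        exact mul_le_mul_of_nonneg_left h3 (sq_nonneg _)
      linarith

/-- the square lattice -/
noncomputable def Sq : PeriodPair where
  ω₁ := 1
  ω₂ := Complex.I
  indep := by
    rw [LinearIndependent.pair_iff]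
    intro a b h
    have h1 := congrArg Complex.im h
    have h2 := congrArg Complex.re h
    simp at h1 h2
    exact ⟨h2, h1⟩

theorem half_ne : (1 / 2 : ℝ) ≠ 0 := by norm_num

theorem tau_half : tau (1 / 2) = (1 + Complex.I) / 2 := by
  rw [tau_eq]
  push_cast
  ring

theorem G6_half : (La (1 / 2) half_ne).G 6 = 0 := by
  have h := G_mul (La (1 / 2) half_ne) Complex.I 4 Complex.I_pow_four (by norm_num) (by
    intro l hl
    obtain ⟨m, n, rfl⟩ := mem_La.1 hl
    refine mem_La.2 ⟨-m - n, 2 * m + n, ?_⟩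
    rw [tau_half]
    push_cast
    linear_combination (-(n : ℂ) / 2) * Complex.I_sq) 6
  have e : Complex.I ^ 6 = -1 := by
    calc Complex.I ^ 6 = (Complex.I ^ 2) ^ 3 := by ring
      _ = -1 := by rw [Complex.I_sq]; norm_num
  rw [e] at h
  linear_combination (-1 / 2 : ℂ) * h

theorem G4_half : ((La (1 / 2) half_ne).G 4).re < 0 := by
  have hc : tau (1 / 2) ≠ 0 := by
    intro h
    have := congrArg Complex.re h
    simp [tau] at this
  have h := G_scale Sq (La (1 / 2) half_ne) (tau (1 / 2)) hc (by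
    intro z
    rw [PeriodPair.mem_lattice, mem_La]
    constructor
    · rintro ⟨m, n, rfl⟩
      refine ⟨-n, m + n, ?_⟩
      simp only [Sq]
      rw [tau_half]
      push_cast
      linear_combination (-(n : ℂ) / 2) * Complex.I_sq
    · rintro ⟨m, n, h⟩
      refine ⟨m + n, -m, ?_⟩
      apply mul_left_cancel₀ hc
      rw [← h]
      simp only [Sq]
      rw [tau_half]
      push_cast
      linear_combination (-(m : ℂ) / 2) * Complex.I_sq) 4
  have e : tau (1 / 2) ^ 4 = -1 / 4 := by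
    rw [tau_half]
    calc ((1 + Complex.I) / 2) ^ 4 = ((1 + 2 * Complex.I + Complex.I ^ 2) / 4) ^ 2 := by ring
      _ = -1 / 4 := by
        rw [Complex.I_sq]
        linear_combination (1 / 4 : ℂ) * Complex.I_sq
  have h4 := G4_sq_pos Sq rfl rfl
  rw [h, e]
  have e2 : ((-1 / 4 : ℂ))⁻¹ * Sq.G 4 = ((-4 : ℝ) : ℂ) * Sq.G 4 := by
    push_cast
    norm_num
  rw [e2, Complex.re_ofReal_mul]
  linarith

theorem sqrt3_ne : √3 / 2 ≠ 0 := by positivity

theorem G4_hex : (La (√3 / 2) sqrt3_ne).G 4 = 0 := by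
  have h2 : (tau (√3 / 2)) ^ 2 = tau (√3 / 2) - 1 := tau_sq _ rfl
  have h3 : (tau (√3 / 2)) ^ 3 = -1 := by linear_combination (tau (√3 / 2) + 1) * h2
  have h6 : (tau (√3 / 2)) ^ 6 = 1 := by
    linear_combination ((tau (√3 / 2)) ^ 3 - 1) * h3
  have h := G_mul (La (√3 / 2) sqrt3_ne) (tau (√3 / 2)) 6 h6 (by norm_num)
    (mul_hex _ rfl rfl) 4
  have h5 : (tau (√3 / 2) + 1) * (La (√3 / 2) sqrt3_ne).G 4 = 0 := by
    linear_combination (tau (√3 / 2) * (La (√3 / 2) sqrt3_ne).G 4) * h3 - h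
  refine (mul_eq_zero.1 h5).resolve_left fun h7 => ?_
  have := congrArg Complex.re h7
  simp [tau] at this
  norm_num at this

/-- the invariants as real functions -/
noncomputable def g2f (t : ℝ) : ℝ := 60 * (∑' p : ℤ × ℤ, (((p.1 : ℂ) + p.2 * tau t) ^ 4)⁻¹).re

/-- the invariants as real functions -/
noncomputable def g3f (t : ℝ) : ℝ := 140 * (∑' p : ℤ × ℤ, (((p.1 : ℂ) + p.2 * tau t) ^ 6)⁻¹).re

theorem g2_eq (t : ℝ) (ht : t ≠ 0) : (La t ht).g₂ = (g2f t : ℂ) := by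
  rw [PeriodPair.g₂, La_real 4, G_eq, g2f]
  push_cast
  rfl

theorem g3_eq (t : ℝ) (ht : t ≠ 0) : (La t ht).g₃ = (g3f t : ℂ) := by
  rw [PeriodPair.g₃, La_real 6, G_eq, g3f]
  push_cast
  rfl

theorem exists_t : ∃ t : ℝ, 0 < t ∧
    g2f t ^ 3 * (5291 / 216) ^ 2 + (215 / 12) ^ 3 * g3f t ^ 2 = 0 := by
  have hle : (1 / 2 : ℝ) ≤ √3 / 2 := by
    have : (1 : ℝ) ≤ √3 := by
      rw [Real.one_le_sqrt]
      norm_num
    linarith
  have hc4 := G_cont 4 (by norm_num)
  have hc6 := G_cont 6 (by norm_num)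
  have hg2 : ContinuousOn g2f (Icc (1 / 2) (√3 / 2)) :=
    (Complex.continuous_re.comp_continuousOn hc4).const_mul 60
  have hg3 : ContinuousOn g3f (Icc (1 / 2) (√3 / 2)) :=
    (Complex.continuous_re.comp_continuousOn hc6).const_mul 140
  have hφ : ContinuousOn (fun t => g2f t ^ 3 * (5291 / 216) ^ 2 + (215 / 12) ^ 3 * g3f t ^ 2)
      (Icc (1 / 2) (√3 / 2)) := by
    fun_prop
  have h1 : g2f (1 / 2) < 0 := by
    have h := G4_half
    rw [G_eq] at h
    unfold g2f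
    linarith
  have h2 : g3f (1 / 2) = 0 := by
    have h := G6_half
    rw [G_eq] at h
    unfold g3f
    rw [h]
    simp
  have h3 : g2f (√3 / 2) = 0 := by
    have h := G4_hex
    rw [G_eq] at h
    unfold g2f
    rw [h]
    simp
  have h4 : g3f (√3 / 2) ≠ 0 := by
    intro h
    apply not_both (La_halves (t := √3 / 2) (ht := sqrt3_ne))
    rw [g2_eq, g3_eq, h3, h]
    simp
  have h5 := intermediate_value_Icc hle hφ
  have h6 : (0 : ℝ) ∈ Icc (g2f (1 / 2) ^ 3 * (5291 / 216) ^ 2 + (215 / 12) ^ 3 * g3f (1 / 2) ^ 2)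
      (g2f (√3 / 2) ^ 3 * (5291 / 216) ^ 2 + (215 / 12) ^ 3 * g3f (√3 / 2) ^ 2) := by
    rw [h2, h3]
    constructor
    · have h8 : g2f (1 / 2) ^ 3 < 0 := by
        have h7 := mul_pos_of_neg_of_neg h1 h1
        have e : g2f (1 / 2) ^ 3 = g2f (1 / 2) * g2f (1 / 2) * g2f (1 / 2) := by ring
        rw [e]
        exact mul_neg_of_pos_of_neg h7 h1
      nlinarith
    · positivity
  obtain ⟨t, ht, hφt⟩ := h5 h6
  exact ⟨t, by have := ht.1; linarith, hφt⟩

theorem scale_g2 (L : PeriodPair) (c : ℂ) (hc : c ≠ 0) :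
    (scale L c hc).g₂ = (c ^ 4)⁻¹ * L.g₂ := by
  rw [PeriodPair.g₂, PeriodPair.g₂, G_scale L (scale L c hc) c hc (mem_scale L c hc)]
  ring

theorem scale_g3 (L : PeriodPair) (c : ℂ) (hc : c ≠ 0) :
    (scale L c hc).g₃ = (c ^ 6)⁻¹ * L.g₃ := by
  rw [PeriodPair.g₃, PeriodPair.g₃, G_scale L (scale L c hc) c hc (mem_scale L c hc)]
  ring

theorem s_lat : Pool.Agent.W97.MT.S_LAT := by
  obtain ⟨t, ht, hφ⟩ := exists_t
  have htn := ht.ne'
  set a := g2f t with ha
  set b := g3f t with hb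
  have hg2 := g2_eq t htn
  have hg3 := g3_eq t htn
  rw [← ha] at hg2
  rw [← hb] at hg3
  have hnb : ¬ (a = 0 ∧ b = 0) := by
    rintro ⟨h1, h2⟩
    apply not_both (La_halves (t := t) (ht := htn))
    rw [hg2, hg3, h1, h2]
    simp
  have hb0 : b ≠ 0 := by
    intro h
    apply hnb
    refine ⟨?_, h⟩
    rw [h] at hφ
    have : a ^ 3 = 0 := by linarith
    exact pow_eq_zero_iff (by norm_num) |>.1 this
  have ha0 : a ≠ 0 := by
    intro h
    apply hnb
    refine ⟨h, ?_⟩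
    rw [h] at hφ
    have : b ^ 2 = 0 := by linarith
    exact pow_eq_zero_iff (by norm_num) |>.1 this
  set μ : ℝ := (5291 / 216 / b) / (-215 / 12 / a) with hμ
  have hμ0 : μ ≠ 0 := by
    rw [hμ]
    positivity
  have hcu : (-215 / 12 : ℝ) ^ 3 * b ^ 2 = (5291 / 216) ^ 2 * a ^ 3 := by linarith
  have hR : μ * b * (-215 / 12) = 5291 / 216 * a := by
    rw [hμ]
    field_simp
  have hb2 : b ^ 2 ≠ 0 := pow_ne_zero _ hb0
  have hμ2 : μ ^ 2 * a = -215 / 12 := by
    have h1 : (b ^ 2 * (-215 / 12) ^ 2) * (μ ^ 2 * a) = (b ^ 2 * (-215 / 12) ^ 2) * (-215 / 12) := by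
      linear_combination (μ * b * (-215 / 12) + 5291 / 216 * a) * a * hR - hcu
    exact mul_left_cancel₀ (mul_ne_zero hb2 (by norm_num)) h1
  have hμ3 : μ ^ 3 * b = 5291 / 216 := by
    have h1 : (b ^ 2 * (-215 / 12) ^ 3) * (μ ^ 3 * b) =
        (b ^ 2 * (-215 / 12) ^ 3) * (5291 / 216) := by
      linear_combination ((μ * b * (-215 / 12)) ^ 2 + (μ * b * (-215 / 12)) * (5291 / 216 * a) +
        (5291 / 216 * a) ^ 2) * hR - (5291 / 216) * hcu
    exact mul_left_cancel₀ (mul_ne_zero hb2 (by norm_num)) h1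
  have hμ2' : (μ : ℂ) ^ 2 * a = -215 / 12 := by exact_mod_cast hμ2
  have hμ3' : (μ : ℂ) ^ 3 * b = 5291 / 216 := by
    rw [← Complex.ofReal_pow, ← Complex.ofReal_mul, hμ3]
    norm_num
  have hμc : (μ : ℂ) ≠ 0 := by exact_mod_cast hμ0
  rcases lt_or_gt_of_ne hμ0 with hneg | hpos
  · obtain ⟨s, hs, hs2⟩ : ∃ s : ℝ, 0 < s ∧ s ^ 2 * (-μ) = 1 := by
      refine ⟨(√(-μ))⁻¹, inv_pos.2 (Real.sqrt_pos.2 (by linarith)), ?_⟩
      rw [inv_pow, Real.sq_sqrt (by linarith), inv_mul_cancel₀ (by linarith)]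
    have hs2' : (s : ℂ) ^ 2 * (-μ) = 1 := by exact_mod_cast hs2
    have hs0 : (s : ℂ) ≠ 0 := by exact_mod_cast hs.ne'
    have hlam : (s : ℂ) * Complex.I ≠ 0 := mul_ne_zero hs0 Complex.I_ne_zero
    have h4 : ((s : ℂ) * Complex.I) ^ 4 * μ ^ 2 = 1 := by
      rw [mul_pow, Complex.I_pow_four]
      linear_combination (-(s : ℂ) ^ 2 * μ + 1) * hs2'
    have h6 : ((s : ℂ) * Complex.I) ^ 6 * μ ^ 3 = 1 := by
      have e : Complex.I ^ 6 = -1 := by
        calc Complex.I ^ 6 = (Complex.I ^ 2) ^ 3 := by ring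
          _ = -1 := by rw [Complex.I_sq]; norm_num
      rw [mul_pow, e]
      linear_combination (((s : ℂ) ^ 2 * (-μ)) ^ 2 + (s : ℂ) ^ 2 * (-μ) + 1) * hs2'
    refine ⟨scale (La t htn) ((s : ℂ) * Complex.I) hlam, s * t, s / 2, by positivity,
      by positivity, ?_, ?_, ?_⟩
    · rw [scale_g2, hg2, ← hμ2', inv_eq_of_mul_eq_one_right h4]
    · rw [scale_g3, hg3, ← hμ3', inv_eq_of_mul_eq_one_right h6]
    · intro w
      rw [PeriodPair.mem_lattice]
      simp only [scale, La, tau_eq]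
      constructor
      · rintro ⟨m, n, rfl⟩
        refine ⟨-n, 2 * m + n, ⟨-n - m, by ring⟩, ?_⟩
        push_cast
        linear_combination (n : ℂ) * s * t * Complex.I_sq
      · rintro ⟨x, y, ⟨k, hk⟩, rfl⟩
        have hy : y = x - 2 * k := by omega
        subst hy
        refine ⟨x - k, -x, ?_⟩
        push_cast
        linear_combination -(x : ℂ) * s * t * Complex.I_sq
  · obtain ⟨s, hs, hs2⟩ : ∃ s : ℝ, 0 < s ∧ s ^ 2 * μ = 1 := by
      refine ⟨(√μ)⁻¹, inv_pos.2 (Real.sqrt_pos.2 hpos), ?_⟩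
      rw [inv_pow, Real.sq_sqrt hpos.le, inv_mul_cancel₀ hμ0]
    have hs2' : (s : ℂ) ^ 2 * μ = 1 := by exact_mod_cast hs2
    have hs0 : (s : ℂ) ≠ 0 := by exact_mod_cast hs.ne'
    have h4 : (s : ℂ) ^ 4 * μ ^ 2 = 1 := by
      linear_combination ((s : ℂ) ^ 2 * μ + 1) * hs2'
    have h6 : (s : ℂ) ^ 6 * μ ^ 3 = 1 := by
      linear_combination (((s : ℂ) ^ 2 * μ) ^ 2 + (s : ℂ) ^ 2 * μ + 1) * hs2'
    refine ⟨scale (La t htn) (s : ℂ) hs0, s / 2, s * t, by positivity,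
      by positivity, ?_, ?_, ?_⟩
    · rw [scale_g2, hg2, ← hμ2', inv_eq_of_mul_eq_one_right h4]
    · rw [scale_g3, hg3, ← hμ3', inv_eq_of_mul_eq_one_right h6]
    · intro w
      rw [PeriodPair.mem_lattice]
      simp only [scale, La, tau_eq]
      constructor
      · rintro ⟨m, n, rfl⟩
        refine ⟨2 * m + n, n, ⟨m, by ring⟩, ?_⟩
        push_cast
        ring
      · rintro ⟨x, y, ⟨k, hk⟩, rfl⟩
        have hx : x = y + 2 * k := by omega
        subst hx
        refine ⟨k, y, ?_⟩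
        push_cast
        ring

end Pool.Agent.W646.MT
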