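import Pool.Agent.W97.MT.Stm

/-!
The final computation with modular symbols.
-/

set_option autoImplicit false

namespace Pool.Agent.W646.MT

open Finset

theorem s_arith : Pool.Agent.W97.MT.S_ARITH := by
  intro I Op Om L hOp hOm hL him h6 h2 h3 hj hconj hper hsum
  obtain ⟨a, b, hab, hu⟩ := (hL _).1 h6
  have hOmn := hOm.ne'
  have hOpn := hOp.ne'
  have hre : 6 * (I 0).re = a * Op := by
    have := congrArg Complex.re hu
    simpa using this
  have hb : b = 0 := by
    have := congrArg Complex.im hu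
    simp [him] at this
    rcases this with h | h
    · exact h
    · exact absurd h hOmn
  subst hb
  rw [sub_zero] at hab
  obtain ⟨m, rfl⟩ := hab
  have hm : 3 * (I 0).re = m * Op := by
    push_cast at hre
    linarith
  have hI0 : I 0 = ((I 0).re : ℂ) := by
    apply Complex.ext
    · simp
    · simpa using him
  have hmodd : ¬ (2 : ℤ) ∣ m := by
    intro h
    apply h3
    rw [hL]
    refine ⟨m, 0, by simpa using h, ?_⟩
    rw [hI0]
    have : ((3 * (I 0).re : ℝ) : ℂ) = ((m * Op : ℝ) : ℂ) := by rw [hm]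
    push_cast at this ⊢
    linear_combination this
  have hm3 : ¬ (3 : ℤ) ∣ m := by
    rintro ⟨k, rfl⟩
    apply h2
    rw [hL]
    refine ⟨2 * k, 0, by simp, ?_⟩
    rw [hI0]
    have : ((3 * (I 0).re : ℝ) : ℂ) = (((3 * k : ℤ) * Op : ℝ) : ℂ) := by rw [hm]
    push_cast at this ⊢
    linear_combination (2 / 3 : ℂ) * this
  have hm3' : (3 : ℂ) * I 0 = m * Op := by
    rw [hI0]
    exact_mod_cast congrArg Complex.ofReal hm
  have hthree : ∀ r : ℚ, ∃ x y : ℤ, (3 : ℂ) * I r = x * Op + y * Om * Complex.I := by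
    intro r
    obtain ⟨j, hjr⟩ := hj r
    obtain ⟨x, y, -, hxy⟩ := (hL _).1 hjr
    refine ⟨j * m + 3 * x, 3 * y, ?_⟩
    push_cast
    linear_combination 3 * hxy + (j : ℂ) * hm3'
  have hs : ∀ r : ℚ, ∃ s : ℤ, (3 : ℝ) * (I (-r)).re = s * Op := by
    intro r
    obtain ⟨x, y, h⟩ := hthree (-r)
    refine ⟨x, ?_⟩
    have := congrArg Complex.re h
    simpa using this
  choose s hs using hs
  have hinj : ∀ x y : ℤ, (x : ℝ) * Op = y * Op → x = y := by
    intro x y h
    exact_mod_cast mul_right_cancel₀ hOpn h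
  refine ⟨s, ⟨⟨by norm_num, fun r => ?_⟩, ?_⟩, hs, ?_⟩
  · obtain ⟨x, y, h⟩ := hthree (-r)
    exact ⟨x, y, by push_cast; exact h⟩
  · rintro D ⟨hD0, hD⟩
    obtain ⟨x, y, h⟩ := hD 0
    rw [neg_zero] at h
    have h1 := congrArg Complex.re h
    have h1' : (D : ℝ) * (I 0).re = x * Op := by simpa using h1
    have h2' : ((D * m : ℤ) : ℝ) * Op = ((3 * x : ℤ) : ℝ) * Op := by
      push_cast
      linear_combination 3 * h1' - (D : ℝ) * hm
    have h3' := hinj _ _ h2'
    have h4 : (3 : ℤ) ∣ D * m := ⟨x, h3'⟩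
    have h5 : (3 : ℤ) ∣ D := (Int.prime_three.dvd_or_dvd h4).resolve_right hm3
    have h6' : 3 ∣ D := by exact_mod_cast h5
    exact Nat.le_of_dvd hD0 h6'
  · have hs0 : s 0 = m := by
      apply hinj
      rw [← hs 0, neg_zero, hm]
    -- symmetry
    have hre' : ∀ r : ℚ, (3 : ℝ) * (I r).re = s r * Op := by
      intro r
      rw [← hs r, hconj r, Complex.conj_re]
    have hsym : ∀ r : ℚ, s (1 - r) = s r := by
      intro r
      apply hinj
      rw [← hs (1 - r), ← hre' r]
      have h := hper (-(1 - r))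
      rw [show -(1 - r) + 1 = r by ring] at h
      rw [h]
    have h16 : s (6 / 7) = s (1 / 7) := by
      rw [← hsym (1 / 7)]
      norm_num
    have h25 : s (5 / 7) = s (2 / 7) := by
      rw [← hsym (2 / 7)]
      norm_num
    have h34 : s (4 / 7) = s (3 / 7) := by
      rw [← hsym (3 / 7)]
      norm_num
    have hz : s (1 / 7) + s (2 / 7) + s (3 / 7) = 0 := by
      have h7 : 2 * (s (1 / 7) + s (2 / 7) + s (3 / 7)) = 0 := by
        apply hinj
        have h8 := congrArg Complex.re hsum
        simp only [sum_range_succ, range_zero, sum_empty, zero_add, Complex.add_re] at h8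
        norm_num at h8
        have e1 := hre' (1 / 7)
        have e2 := hre' (2 / 7)
        have e3 := hre' (3 / 7)
        have e4 := hre' (4 / 7)
        have e5 := hre' (5 / 7)
        have e6 := hre' (6 / 7)
        rw [h16] at e6
        rw [h25] at e5
        rw [h34] at e4
        norm_num at e1
        push_cast
        linarith
      omega
    rw [hs0]
    have hprod : ∏ a ∈ Finset.Icc (1 : ℕ) 6, (a : ZMod 7) ^ ((3 : ℤ) * s ((a : ℚ) / 7)) = 1 := by
      have e : ∀ x : ZMod 7, ∀ t : ℤ, x ^ ((3 : ℤ) * t) = (x ^ 3) ^ t := by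
        intro x t
        rw [zpow_mul]
        rfl
      have hI : Finset.Icc (1 : ℕ) 6 = {1, 2, 3, 4, 5, 6} := by decide
      rw [hI]
      simp only [e]
      rw [prod_insert (by decide), prod_insert (by decide), prod_insert (by decide),
        prod_insert (by decide), prod_insert (by decide), prod_singleton]
      have c1 : (((1 : ℕ) : ZMod 7)) ^ 3 = 1 := by decide
      have c2 : (((2 : ℕ) : ZMod 7)) ^ 3 = 1 := by decide
      have c3 : (((3 : ℕ) : ZMod 7)) ^ 3 = -1 := by decide
      have c4 : (((4 : ℕ) : ZMod 7)) ^ 3 = 1 := by decide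
      have c5 : (((5 : ℕ) : ZMod 7)) ^ 3 = -1 := by decide
      have c6 : (((6 : ℕ) : ZMod 7)) ^ 3 = -1 := by decide
      rw [c1, c2, c3, c4, c5, c6, one_zpow, one_zpow, one_zpow, one_mul, one_mul, one_mul]
      have hn : (-1 : ZMod 7) ≠ 0 := by decide
      rw [← zpow_add₀ hn, ← zpow_add₀ hn]
      have h9 : s (((3 : ℕ) : ℚ) / 7) + (s (((5 : ℕ) : ℚ) / 7) + s (((6 : ℕ) : ℚ) / 7)) = 0 := by
        push_cast
        rw [h25, h16]
        linarith
      rw [h9, zpow_zero]
    rw [hprod]
    have hodd : Odd m := by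
      rw [← Int.not_even_iff_odd]
      intro h
      exact hmodd h.two_dvd
    rw [hodd.neg_one_zpow]
    decide

end Pool.Agent.W646.MT
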