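import Pool.Agent.W97.MT.Stm
import Pool.Agent.W97.TW.Eleven

/-!
The constant principle on the modular curve of level 14.
-/

set_option autoImplicit false

open UpperHalfPlane MatrixGroups CongruenceSubgroup Filter Topology
open scoped ModularForm Pointwise

namespace Pool.Agent.W646.MT

open Pool.Agent.W97.TW

/-- representatives of the cusps -/
theorem cusp_reps : ∀ a b c d : ZMod 14, a * d - b * c = 1 → ∃ j : ZMod 14,
    c = 0 ∨ c = d - j * c ∨ c = 2 * (d - j * c) ∨ c = 7 * (d - j * c) := by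
  decide +kernel

theorem cusp_reps_int (a b c d : ℤ) (h : a * d - b * c = 1) : ∃ j e : ℤ,
    (e = 0 ∨ e = 1 ∨ e = 2 ∨ e = 7) ∧ (14 : ℤ) ∣ c - e * (d - j * c) := by
  have h1 : ((a : ZMod 14)) * d - b * c = 1 := by exact_mod_cast congrArg (Int.cast (R := ZMod 14)) h
  obtain ⟨j, hj⟩ := cusp_reps a b c d h1
  have hjv : ((j.val : ℤ) : ZMod 14) = j := by
    push_cast
    exact ZMod.natCast_zmod_val j
  have key : ∀ e : ℤ, (c : ZMod 14) = (e : ZMod 14) * (d - j * c) →
      (14 : ℤ) ∣ c - e * (d - (j.val : ℤ) * c) := by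
    intro e he
    have h2 : ((c - e * (d - (j.val : ℤ) * c) : ℤ) : ZMod 14) = 0 := by
      rw [Int.cast_sub, Int.cast_mul, Int.cast_sub, Int.cast_mul, hjv, sub_eq_zero]
      exact he
    exact_mod_cast (ZMod.intCast_zmod_eq_zero_iff_dvd _ 14).1 h2
  rcases hj with h2 | h2 | h2 | h2
  · exact ⟨j.val, 0, Or.inl rfl, key 0 (by rw [h2]; push_cast; ring)⟩
  · exact ⟨j.val, 1, Or.inr (Or.inl rfl), key 1 (by push_cast; rw [one_mul]; exact h2)⟩
  · exact ⟨j.val, 2, Or.inr (Or.inr (Or.inl rfl)), key 2 (by push_cast; exact h2)⟩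
  · exact ⟨j.val, 7, Or.inr (Or.inr (Or.inr rfl)), key 7 (by push_cast; exact h2)⟩

section

variable {g : ℂ → ℂ}
  (hinv : ∀ a b c d : ℤ, a * d - b * (14 * c) = 1 → ∀ z : ℂ, 0 < z.im →
    g ((a * z + b) / (14 * c * z + d)) = g z)

include hinv

/-- invariance under translations -/
theorem inv_T (j : ℤ) {z : ℂ} (hz : 0 < z.im) : g (z + j) = g z := by
  have h := hinv 1 j 0 1 (by ring) z hz
  rw [← h]
  congr 1
  push_cast
  ring

/-- reduction to the representatives of the cusps -/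
theorem reduce {a b c d : ℤ} (h : a * d - b * c = 1) (j e : ℤ)
    (h14 : (14 : ℤ) ∣ c - e * (d - j * c)) {z : ℂ} (hz : 0 < z.im) :
    g ((a * z + b) / (c * z + d)) = g ((z + j) / (e * (z + j) + 1)) := by
  obtain ⟨c0, hc0⟩ := h14
  have hw : 0 < (z + j).im := by simpa using hz
  have hu := im_moebius (a := 1) (b := 0) (c := e) (d := 1) (by ring) hw
  have hu1 : 0 < ((z + j) / (e * (z + j) + 1)).im := by simpa using hu.1
  have hu2 : (e : ℂ) * (z + j) + 1 ≠ 0 := by simpa using hu.2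
  have h2 := hinv (a - e * (b - j * a)) (b - j * a) c0 (d - j * c)
    (by rw [← hc0]; linear_combination h) _ hu1
  rw [← h2]
  have hc0' : (14 : ℂ) * c0 = c - e * (d - j * c) := by exact_mod_cast hc0.symm
  congr 1
  rw [hc0']
  have e1 : ((a - e * (b - j * a) : ℤ) : ℂ) * ((z + j) / (e * (z + j) + 1)) +
      ((b - j * a : ℤ) : ℂ) = (a * z + b) / (e * (z + j) + 1) := by
    rw [eq_div_iff hu2, add_mul, mul_assoc, div_mul_cancel₀ _ hu2]
    push_cast
    ring
  have e2 : ((c : ℂ) - e * (d - j * c)) * ((z + j) / (e * (z + j) + 1)) +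
      ((d - j * c : ℤ) : ℂ) = (c * z + d) / (e * (z + j) + 1) := by
    rw [eq_div_iff hu2, add_mul, mul_assoc, div_mul_cancel₀ _ hu2]
    push_cast
    ring
  rw [e1, e2, div_div_div_cancel_right₀ hu2]

/-- boundedness at all cusps -/
theorem bdd (h1 : ∃ B T : ℝ, ∀ z : ℂ, T < z.im → ‖g z‖ ≤ B)
    (h2 : ∃ B T : ℝ, 0 ≤ T ∧ ∀ z : ℂ, T < z.im → ‖g (-1 / (14 * z))‖ ≤ B)
    (h3 : ∃ B T : ℝ, 0 ≤ T ∧ ∀ z : ℂ, T < z.im → ‖g ((7 * z - 4) / (14 * z - 7))‖ ≤ B)
    (h4 : ∃ B T : ℝ, 0 ≤ T ∧ ∀ z : ℂ, T < z.im → ‖g ((2 * z - 1) / (14 * z - 6))‖ ≤ B)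
    {a b c d : ℤ} (h : a * d - b * c = 1) :
    ∃ B T : ℝ, ∀ z : ℂ, 0 < z.im → T < z.im → ‖g ((a * z + b) / (c * z + d))‖ ≤ B := by
  obtain ⟨j, e, he, h14⟩ := cusp_reps_int a b c d h
  rcases he with rfl | rfl | rfl | rfl
  · obtain ⟨B, T, hB⟩ := h1
    refine ⟨B, T, fun z hz hT => ?_⟩
    rw [reduce hinv h j 0 h14 hz]
    have e1 : (z + j) / (((0 : ℤ) : ℂ) * (z + j) + 1) = z + j := by push_cast; ring
    rw [e1]
    exact hB _ (by simpa using hT)
  · obtain ⟨B, T, hT0, hB⟩ := h2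
    refine ⟨B, 14 * T, fun z hz hT => ?_⟩
    rw [reduce hinv h j 1 h14 hz]
    set v : ℂ := (z + j + 1) / 14 with hv
    have hvi : v.im = z.im / 14 := by
      rw [hv, Complex.div_ofNat_im]
      simp
    have hvT : T < v.im := by rw [hvi]; linarith
    have hv0 : 0 < (14 * v).im := by
      have : (14 * v : ℂ) = z + j + 1 := by rw [hv]; ring
      rw [this]
      simpa using hz
    have hm := (im_moebius (a := 0) (b := -1) (c := 1) (d := 0) (by norm_num) hv0).1
    have hn := (im_moebius (a := 0) (b := -1) (c := 1) (d := 0) (by norm_num) hv0).2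
    have hm' : 0 < (-1 / (14 * v)).im := by simpa using hm
    have hn' : (14 : ℂ) * v ≠ 0 := by simpa using hn
    have h5 := inv_T hinv 1 hm'
    have e1 : (z + j) / (((1 : ℤ) : ℂ) * (z + j) + 1) = -1 / (14 * v) + ((1 : ℤ) : ℂ) := by
      have e2 : ((1 : ℤ) : ℂ) * (z + j) + 1 = 14 * v := by rw [hv]; push_cast; ring
      rw [e2, div_add' _ _ _ hn']
      congr 1
      rw [hv]
      push_cast
      ring
    rw [e1, h5]
    exact hB _ hvT
  · obtain ⟨B, T, hT0, hB⟩ := h3
    refine ⟨B, 7 * T, fun z hz hT => ?_⟩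
    rw [reduce hinv h j 2 h14 hz]
    set v : ℂ := (z + j + 4) / 7 with hv
    have hvi : v.im = z.im / 7 := by
      rw [hv, Complex.div_ofNat_im]
      simp
    have e1 : (z + j) / (((2 : ℤ) : ℂ) * (z + j) + 1) = (7 * v - 4) / (14 * v - 7) := by
      congr 1
      · rw [hv]; ring
      · rw [hv]; push_cast; ring
    rw [e1]
    exact hB _ (by rw [hvi]; linarith)
  · obtain ⟨B, T, hT0, hB⟩ := h4
    refine ⟨B, 2 * T, fun z hz hT => ?_⟩
    rw [reduce hinv h j 7 h14 hz]
    set v : ℂ := (z + j + 1) / 2 with hv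
    have hvi : v.im = z.im / 2 := by
      rw [hv, Complex.div_ofNat_im]
      simp
    have e1 : (z + j) / (((7 : ℤ) : ℂ) * (z + j) + 1) = (2 * v - 1) / (14 * v - 6) := by
      congr 1
      · rw [hv]; ring
      · rw [hv]; push_cast; ring
    rw [e1]
    exact hB _ (by rw [hvi]; linarith)

end

/-- the constant principle -/
theorem s_cp : Pool.Agent.W97.MT.S_CP := by
  intro g hd hinv h1 h2 h3 h4
  let F : ModularForm (Gamma0 14 : Subgroup (GL (Fin 2) ℝ)) 0 :=
    { toFun := fun z => g z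
      slash_action_eq' := by
        rintro _ ⟨γ, hγ, rfl⟩
        change (fun z : ℍ => g z) ∣[(0 : ℤ)] γ = _
        obtain ⟨a, b, c, d, h, rfl⟩ := exists_mkSL γ
        have hγ' := (mkSL_mem a b c d h 14).1 hγ
        clear hγ
        obtain ⟨c, rfl⟩ := hγ'
        funext z
        rw [ModularForm.SL_slash_apply, neg_zero, zpow_zero, mul_one, mkSL_smul]
        have h5 := hinv a b c d (by push_cast at h; exact h) z z.im_pos
        push_cast
        exact h5
      holo' := by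
        rw [UpperHalfPlane.mdifferentiable_iff]
        refine hd.congr fun z hz => ?_
        rw [Function.comp_apply, ofComplex_apply_of_im_pos hz]
        rfl
      bdd_at_cusps' := by
        intro c hc
        rw [Subgroup.IsArithmetic.isCusp_iff_isCusp_SL2Z] at hc
        rw [OnePoint.isBoundedAt_iff_forall_SL2Z hc]
        intro γ _
        obtain ⟨a, b, c, d, h, rfl⟩ := exists_mkSL γ
        obtain ⟨B, T, hB⟩ := bdd hinv h1 h2 h3 h4 h
        rw [isBoundedAtImInfty_iff]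
        refine ⟨B, T + 1, fun z hz => ?_⟩
        rw [ModularForm.SL_slash_apply, neg_zero, zpow_zero, mul_one, mkSL_smul]
        exact hB z z.im_pos (by
          have : z.im = (z : ℂ).im := rfl
          linarith) }
  obtain ⟨c, hc⟩ := ModularForm.eq_const_of_weight_zero F
  refine ⟨c, fun z hz => ?_⟩
  have h1 := congrFun hc ⟨z, hz⟩
  exact h1

end Pool.Agent.W646.MT
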