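import Pool.Agent.W97.MT.Stm
import Pool.Agent.Helper620.Wg.KI

set_option autoImplicit false

namespace Pool.Agent.W646.MT

/-- the Weierstrass function is injective up to sign -/
theorem s_inj : Pool.Agent.W97.MT.S_INJ :=
  fun L a b ha hb h => Wg.wp_inj L a b ha hb h

end Pool.Agent.W646.MT
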